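import Pool.Agent.Y772.ND.Stm

/-!
# Project ND (helper772), part VEXP: the linear functional
-/

set_option autoImplicit false

open Complex MeasureTheory
open scoped ComplexConjugate

namespace Pool.Agent.Y528.ND

open Pool.Agent.Y772.ND

lemma g_eq (z : ℂ) (s t : ℝ) : ((Real.exp (-(t - s) ^ 2) : ℝ) : ℂ) * cexp (-(z - t) ^ 2) =
    cexp ((-2 : ℂ) * (t : ℂ) ^ 2 + (2 * (z + s)) * t + (-(z ^ 2 + s ^ 2))) := by
  rw [Complex.ofReal_exp, ← Complex.exp_add]
  congr 1
  push_cast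
  ring

lemma g_int (z : ℂ) (s : ℝ) :
    Integrable (fun t : ℝ => ((Real.exp (-(t - s) ^ 2) : ℝ) : ℂ) * cexp (-(z - t) ^ 2)) := by
  simp_rw [g_eq]
  exact integrable_cexp_quadratic' (by simp) _ _

lemma pi_half : (Real.pi / 2 : ℂ) ^ (1 / 2 : ℂ) = (Real.sqrt (Real.pi / 2) : ℂ) := by
  rw [show (1 / 2 : ℂ) = ((1 / 2 : ℝ) : ℂ) by push_cast; ring,
    show (Real.pi / 2 : ℂ) = ((Real.pi / 2 : ℝ) : ℂ) by push_cast; ring,
    ← Complex.ofReal_cpow (by positivity), ← Real.sqrt_eq_rpow]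

lemma g_val (z : ℂ) (s : ℝ) :
    ∫ t : ℝ, ((Real.exp (-(t - s) ^ 2) : ℝ) : ℂ) * cexp (-(z - t) ^ 2) =
      (Real.sqrt (Real.pi / 2) : ℂ) * cexp (-(z - s) ^ 2 / 2) := by
  simp_rw [g_eq]
  rw [integral_cexp_quadratic (by simp), neg_neg, pi_half]
  congr 2
  ring

/-- the sum over the points -/
noncomputable def SS (Z : Finset ℂ) (a : ℂ → ℂ) (s u : ℝ) : ℂ :=
  ∑ z ∈ Z, a z * (cexp (I * u * (z - s)) * cexp (-(z - s) ^ 2 / 2))

lemma G_eq (Z : Finset ℂ) (a : ℂ → ℂ) (s u : ℝ) :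
    cexp (-(I * u * s)) * ∫ t : ℝ, ((Real.exp (-(t - s) ^ 2) : ℝ) : ℂ) * Az Z a u t =
      (Real.sqrt (Real.pi / 2) : ℂ) * SS Z a s u := by
  have h1 : ∀ t : ℝ, ((Real.exp (-(t - s) ^ 2) : ℝ) : ℂ) * Az Z a u t =
      ∑ z ∈ Z, (a z * cexp (I * u * z)) *
        (((Real.exp (-(t - s) ^ 2) : ℝ) : ℂ) * cexp (-(z - t) ^ 2)) := by
    intro t
    unfold Az
    rw [Finset.mul_sum]
    exact Finset.sum_congr rfl fun z _ => by ring
  simp_rw [h1]
  rw [integral_finsetSum _ fun z _ => (g_int z s).const_mul _, Finset.mul_sum]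
  unfold SS
  rw [Finset.mul_sum]
  refine Finset.sum_congr rfl fun z _ => ?_
  rw [integral_const_mul, g_val]
  have e : cexp (I * u * (z - s)) = cexp (-(I * u * s)) * cexp (I * u * z) := by
    rw [← Complex.exp_add]
    congr 1
    ring
  rw [e]
  ring

lemma SS_cont (Z : Finset ℂ) (a : ℂ → ℂ) (s : ℝ) : Continuous (SS Z a s) := by
  unfold SS
  fun_prop

lemma SS_neg (Z : Finset ℂ) (a : ℂ → ℂ) (hZ : ∀ z ∈ Z, conj z ∈ Z)
    (ha : ∀ z ∈ Z, a (conj z) = conj (a z)) (s u : ℝ) : SS Z a s (-u) = conj (SS Z a s u) := by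
  unfold SS
  rw [map_sum]
  refine Finset.sum_nbij' (fun z => conj z) (fun z => conj z) (fun z hz => hZ z hz)
    (fun z hz => hZ z hz) (fun z _ => by simp) (fun z _ => by simp) fun z hz => ?_
  rw [ha z hz, map_mul, map_mul, Complex.conj_conj, ← Complex.exp_conj, ← Complex.exp_conj]
  have e1 : conj (I * u * (conj z - s)) = I * ((-u : ℝ) : ℂ) * (z - s) := by
    simp only [map_mul, map_sub, Complex.conj_I, Complex.conj_ofReal, Complex.conj_conj]
    push_cast
    ring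
  have e2 : conj (-(conj z - (s : ℂ)) ^ 2 / 2) = -(z - s) ^ 2 / 2 := by
    simp only [map_div₀, map_neg, map_pow, map_sub, Complex.conj_ofReal, Complex.conj_ofNat,
      Complex.conj_conj]
  rw [e1, e2]

theorem t_VEXP : P_VEXP := by
  intro κ R hR hev hsq Λ hΛ Z a hZ ha s
  set H : ℝ → ℂ := fun α => (R α : ℂ) * SS Z a s (Λ * α) with hH
  have hHc : Continuous H := by
    have h1 := SS_cont Z a s
    simp only [hH]
    fun_prop
  have hHn : ∀ α, H (-α) = conj (H α) := by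
    intro α
    simp only [hH]
    rw [hev, mul_neg, SS_neg Z a hZ ha, map_mul, Complex.conj_ofReal]
  -- the left side
  have h1 : ∑ z ∈ Z, a z * (κ (Λ * (z - s)) * cexp (-(z - s) ^ 2 / 4)) ^ 2 =
      ∫ α in (-1 : ℝ)..1, H α := by
    have h2 : ∀ α : ℝ, H α = ∑ z ∈ Z, (a z * cexp (-(z - s) ^ 2 / 2)) *
        ((R α : ℂ) * cexp (I * (Λ * (z - s)) * α)) := by
      intro α
      simp only [hH]
      unfold SS
      rw [Finset.mul_sum]
      refine Finset.sum_congr rfl fun z _ => ?_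
      have e1 : I * ((Λ * α : ℝ) : ℂ) * (z - s) = I * (Λ * (z - s)) * α := by
        push_cast
        ring
      rw [e1]
      ring
    simp_rw [h2]
    rw [intervalIntegral.integral_finsetSum]
    swap
    · intro z _
      exact (by fun_prop : Continuous fun α : ℝ => (a z * cexp (-(z - s) ^ 2 / 2)) *
        ((R α : ℂ) * cexp (I * (Λ * (z - s)) * α))).intervalIntegrable _ _
    refine Finset.sum_congr rfl fun z _ => ?_
    rw [intervalIntegral.integral_const_mul, ← hsq, mul_pow, ← Complex.exp_nat_mul]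
    have e2 : ((2 : ℕ) : ℂ) * (-(z - s) ^ 2 / 4) = -(z - s) ^ 2 / 2 := by
      push_cast
      ring
    rw [e2]
    ring
  have h3 : ∫ α in (-1 : ℝ)..1, H α = ((2 * (∫ α in (0 : ℝ)..1, H α).re : ℝ) : ℂ) := by
    rw [← intervalIntegral.integral_add_adjacent_intervals (b := 0)
      (hHc.intervalIntegrable _ _) (hHc.intervalIntegrable _ _)]
    have h5 : ∫ α in (-1 : ℝ)..0, H α = conj (∫ α in (0 : ℝ)..1, H α) := by
      have h6 := intervalIntegral.integral_comp_neg (a := (0 : ℝ)) (b := 1) H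
      rw [neg_zero] at h6
      rw [← h6]
      simp_rw [hHn]
      rw [intervalIntegral.integral_of_le zero_le_one, intervalIntegral.integral_of_le zero_le_one]
      exact integral_conj
    rw [h5, add_comm, Complex.add_conj]
  have h4 : ∀ α : ℝ, (R α : ℂ) * (cexp (-(I * (Λ * α) * s)) *
      ∫ t : ℝ, ((Real.exp (-(t - s) ^ 2) : ℝ) : ℂ) * Az Z a (Λ * α) t) =
      (Real.sqrt (Real.pi / 2) : ℂ) * H α := by
    intro α
    have h7 := G_eq Z a s (Λ * α)
    rw [Complex.ofReal_mul] at h7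
    rw [h7]
    simp only [hH]
    ring
  simp_rw [h4]
  rw [h1, h3, intervalIntegral.integral_const_mul, Complex.re_ofReal_mul]
  congr 1
  have h8 : Real.sqrt (2 / Real.pi) * Real.sqrt (Real.pi / 2) = 1 := by
    rw [← Real.sqrt_mul (by positivity)]
    have : 2 / Real.pi * (Real.pi / 2) = 1 := by
      have := Real.pi_ne_zero
      field_simp
    rw [this, Real.sqrt_one]
  calc 2 * (∫ α in (0 : ℝ)..1, H α).re =
        2 * (Real.sqrt (2 / Real.pi) * Real.sqrt (Real.pi / 2)) * (∫ α in (0 : ℝ)..1, H α).re := by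
        rw [h8, mul_one]
    _ = _ := by ring

end Pool.Agent.Y528.ND
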